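import Pool.Agent.L5helper82.DiscAP

/-!
MP_7b119f_an, Q1 and Q2. There is a countable totally bounded metric space `M` all of whose points
are isolated such that, for every `p` in `(0, 1]`, the Lipschitz free `p`-space over `M` fails the
approximation property. More generally, for every metric space `N` there is a metric space `M` all
of whose points are isolated such that for every `p` in `(0, 1]` the Lipschitz free `p`-space over
`N` is isometric to a contractively complemented subspace of the one over `M`. (For complete `M` with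
isolated points the approximation property holds: file `CompleteDiscreteAP` of this folder.)
-/

set_option autoImplicit false

open Pool.Agent.H548R3.PFree Pool.Agent.Y53.FP

namespace Pool.Agent.Results.MP_7b119f_an.DiscreteNoAP

/-- **MP_7b119f_an, Q1 and Q2.** -/
theorem result :
    (∃ (M : Type) (_ : MetricSpace M), Countable M ∧ TotallyBounded (Set.univ : Set M) ∧
      (∀ x : M, ∃ r : ℝ, 0 < r ∧ ∀ y : M, dist y x < r → y = x) ∧
      ∀ (o : M) (p : ℝ), 0 < p → p ≤ 1 → FreeFailsAP p M o) ∧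
    ∀ (N : Type) [MetricSpace N], ∃ (M : Type) (_ : MetricSpace M),
      (∀ x : M, ∃ r : ℝ, 0 < r ∧ ∀ y : M, dist y x < r → y = x) ∧
      ∀ (p : ℝ), 0 < p → p ≤ 1 → ∀ (a : N) (b : M)
        (Y : Type) [NormedAddCommGroup Y] [Module ℝ Y] (δ : N → Y)
        (Z : Type) [NormedAddCommGroup Z] [Module ℝ Z] (ε : M → Z),
        IsLipschitzFree p N a Y δ → IsLipschitzFree p M b Z ε →
        ∃ (J : Y →L[ℝ] Z) (P : Z →L[ℝ] Y), (∀ y, P (J y) = y) ∧
          (∀ y, pnorm p (J y) = pnorm p y) ∧ ∀ z, pnorm p (P z) ≤ pnorm p z := by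
  refine ⟨?_, fun N _ => ⟨L5helper82.DiscAP.Disc N, inferInstance,
    L5helper82.DiscAP.disc_isolated, fun p h0 h1 a b Y _ _ δ Z _ _ ε hδ hε => ?_⟩⟩
  · obtain ⟨N, hN, ⟨φ⟩, hfail⟩ := exists_cantor
    have : CompactSpace N := φ.symm.compactSpace
    refine ⟨L5helper82.DiscAP.Disc N, inferInstance, L5helper82.DiscAP.countable_disc N,
      L5helper82.DiscAP.totallyBounded_disc N, L5helper82.DiscAP.disc_isolated, ?_⟩
    intro o p h0 h1
    have hp : Fact (0 < p ∧ p ≤ 1) := ⟨h0, h1⟩
    obtain ⟨⟨Y, hY1, hY2, δ, hδ⟩, hY⟩ := hfail o.1.1 p h0 h1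
    refine ⟨⟨Pool.Agent.H548R3.PFree.FF p (L5helper82.DiscAP.Disc N), inferInstance, inferInstance,
      fun x => Pool.Agent.H548R3.PFree.cl x o, isLipschitzFree o⟩, ?_⟩
    intro Z _ _ ε hε hAP
    obtain ⟨J, P, hPJ, -, hP⟩ := L5helper82.DiscAP.exists_compl hε hδ
    exact hY Y δ hδ (L5helper82.DiscAP.hasAP_of_compl J P hPJ hP hAP)
  · have hp : Fact (0 < p ∧ p ≤ 1) := ⟨h0, h1⟩
    exact L5helper82.DiscAP.exists_compl hε hδ

end Pool.Agent.Results.MP_7b119f_an.DiscreteNoAP
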